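import Mathlib

open Polynomial Finset

namespace Pool.Agent.Results.MP_b29aa3_nt.HeightAtLeastThree

/-- Coefficient extraction from `P * (X^n - 1) = A(X^s) * C(X)` when `deg C < n`. -/
theorem coeff_of_mul_eq {P A C : ℤ[X]} {n s : ℕ} (hn : 0 < n) (hs : 0 < s)
    (hC : ∀ j, n ≤ j → C.coeff j = 0)
    (h : P * (X ^ n - 1) = expand ℤ s A * C) (k : ℕ) :
    P.coeff k = - ∑ m ∈ range (k / s + 1), A.coeff m * C.coeff ((k - m * s) % n) := by
  -- coefficient of the right side
  have hR : ∀ j : ℕ, (expand ℤ s A * C).coeff j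
      = ∑ m ∈ range (j / s + 1), A.coeff m * C.coeff (j - m * s) := by
    intro j
    rw [coeff_mul, Finset.Nat.sum_antidiagonal_eq_sum_range_succ_mk]
    simp only [coeff_expand hs]
    rw [← Finset.sum_filter_add_sum_filter_not (range j.succ) (fun i => s ∣ i)]
    have h2 : ∑ i ∈ (range j.succ).filter (fun i => ¬ s ∣ i),
        (if s ∣ i then A.coeff (i / s) else 0) * C.coeff (j - i) = 0 := by
      apply Finset.sum_eq_zero
      intro i hi
      rw [Finset.mem_filter] at hi
      rw [if_neg hi.2, zero_mul]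
    rw [h2, add_zero]
    symm
    apply Finset.sum_bij (fun m _ => m * s)
    · intro m hm
      rw [Finset.mem_range] at hm
      rw [Finset.mem_filter, Finset.mem_range]
      refine ⟨?_, Dvd.intro_left m rfl⟩
      have : m ≤ j / s := by omega
      have := (Nat.le_div_iff_mul_le hs).1 this
      omega
    · intro a _ b _ hab
      exact Nat.eq_of_mul_eq_mul_right hs hab
    · intro i hi
      rw [Finset.mem_filter, Finset.mem_range] at hi
      obtain ⟨hi1, c, rfl⟩ := hi
      refine ⟨c, ?_, by ring⟩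
      rw [Finset.mem_range]
      have : c ≤ j / s := (Nat.le_div_iff_mul_le hs).2 (by rw [mul_comm]; omega)
      omega
    · intro m hm
      rw [if_pos (Dvd.intro_left m rfl), Nat.mul_div_cancel _ hs]
  -- recurrence
  have hrec : ∀ j : ℕ, P.coeff j = (if n ≤ j then P.coeff (j - n) else 0)
      - ∑ m ∈ range (j / s + 1), A.coeff m * C.coeff (j - m * s) := by
    intro j
    have h1 : (P * (X ^ n - 1)).coeff j
        = (if n ≤ j then P.coeff (j - n) else 0) - P.coeff j := by
      rw [mul_sub, mul_one, coeff_sub, coeff_mul_X_pow']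
    rw [h, hR] at h1
    linarith
  induction k using Nat.strong_induction_on with
  | _ k ih =>
    rw [hrec k]
    by_cases hk : n ≤ k
    · rw [if_pos hk, ih (k - n) (by omega)]
      -- split range
      have hle : (k - n) / s + 1 ≤ k / s + 1 := by
        have := Nat.div_le_div_right (c := s) (Nat.sub_le k n)
        omega
      rw [← Finset.sum_range_add_sum_Ico _ hle, ← Finset.sum_range_add_sum_Ico
        (fun m => A.coeff m * C.coeff ((k - m * s) % n)) hle]
      have e1 : ∑ m ∈ range ((k - n) / s + 1), A.coeff m * C.coeff (k - m * s) = 0 := by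
        apply Finset.sum_eq_zero
        intro m hm
        rw [Finset.mem_range] at hm
        have h3 : m ≤ (k - n) / s := by omega
        have h4 := (Nat.le_div_iff_mul_le hs).1 h3
        rw [hC (k - m * s) (by omega), mul_zero]
      have e2 : ∑ m ∈ range ((k - n) / s + 1), A.coeff m * C.coeff ((k - n - m * s) % n)
          = ∑ m ∈ range ((k - n) / s + 1), A.coeff m * C.coeff ((k - m * s) % n) := by
        apply Finset.sum_congr rfl
        intro m hm
        rw [Finset.mem_range] at hm
        have h3 : m ≤ (k - n) / s := by omega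
        have h4 := (Nat.le_div_iff_mul_le hs).1 h3
        have h5 : k - m * s = (k - n - m * s) + n := by omega
        rw [h5, Nat.add_mod_right]
      have e3 : ∑ m ∈ Ico ((k - n) / s + 1) (k / s + 1), A.coeff m * C.coeff (k - m * s)
          = ∑ m ∈ Ico ((k - n) / s + 1) (k / s + 1), A.coeff m * C.coeff ((k - m * s) % n) := by
        apply Finset.sum_congr rfl
        intro m hm
        rw [Finset.mem_Ico] at hm
        have h3 : ¬ m ≤ (k - n) / s := by omega
        rw [Nat.le_div_iff_mul_le hs] at h3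
        have h4 : k - m * s < n := by omega
        rw [Nat.mod_eq_of_lt h4]
      rw [e1, e2, e3]
      ring
    · rw [if_neg hk, zero_sub]
      congr 1
      apply Finset.sum_congr rfl
      intro m _
      have h4 : k - m * s < n := by omega
      rw [Nat.mod_eq_of_lt h4]


/-- Coefficients of `A(X^r) * C(X)` when `deg C < r`. -/
theorem coeff_expand_mul {A C : ℤ[X]} {r : ℕ} (hr : 0 < r)
    (hC : ∀ j, r ≤ j → C.coeff j = 0) (l : ℕ) :
    (expand ℤ r A * C).coeff l = A.coeff (l / r) * C.coeff (l % r) := by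
  rw [coeff_mul, Finset.Nat.sum_antidiagonal_eq_sum_range_succ_mk]
  rw [Finset.sum_eq_single (r * (l / r))]
  · simp only [coeff_expand hr]
    rw [if_pos (Dvd.intro _ rfl), Nat.mul_div_cancel_left _ hr]
    have : l - r * (l / r) = l % r := by
      have := Nat.div_add_mod l r
      omega
    rw [this]
  · intro i hi hne
    simp only [coeff_expand hr]
    by_cases hd : r ∣ i
    · rw [if_pos hd]
      obtain ⟨c, rfl⟩ := hd
      rw [Finset.mem_range] at hi
      have hc : c ≤ l / r := (Nat.le_div_iff_mul_le hr).2 (by rw [mul_comm]; omega)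
      have hc2 : c < l / r := by
        rcases Nat.lt_or_ge c (l / r) with h | h
        · exact h
        · exact absurd (by rw [le_antisymm hc h]) hne
      have h3 : r * (c + 1) ≤ r * (l / r) := Nat.mul_le_mul_left r hc2
      have h4 := Nat.div_add_mod l r
      have h5 : r * (c + 1) = r * c + r := by ring
      rw [hC (l - r * c) (by omega), mul_zero]
    · rw [if_neg hd, zero_mul]
  · intro h
    exfalso
    apply h
    rw [Finset.mem_range]
    have h4 := Nat.div_add_mod l r
    omega

/-- The step from `n` to `n * s` for cyclotomic polynomials, `s` a prime not dividing `n`. -/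
theorem cyclotomic_step {n s : ℕ} (hs : s.Prime) (hdiv : ¬ s ∣ n) {Ps : ℤ[X]}
    (hPs : Ps * cyclotomic n ℤ = X ^ n - 1) :
    cyclotomic (n * s) ℤ * (X ^ n - 1) = expand ℤ s (cyclotomic n ℤ) * Ps := by
  rw [cyclotomic_expand_eq_cyclotomic_mul hs hdiv, ← hPs]
  ring

/-- The inverse cyclotomic polynomial of `n * r` from that of `n`. -/
theorem psi_step {n r : ℕ} (hr : r.Prime) (hdiv : ¬ r ∣ n) {Ps : ℤ[X]}
    (hPs : Ps * cyclotomic n ℤ = X ^ n - 1) :
    (expand ℤ r Ps * cyclotomic n ℤ) * cyclotomic (n * r) ℤ = X ^ (n * r) - 1 := by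
  have h : expand ℤ r (Ps * cyclotomic n ℤ) = expand ℤ r (X ^ n - 1) := by rw [hPs]
  rw [map_mul, cyclotomic_expand_eq_cyclotomic_mul hr hdiv] at h
  rw [show (expand ℤ r Ps * cyclotomic n ℤ) * cyclotomic (n * r) ℤ
      = expand ℤ r Ps * (cyclotomic (n * r) ℤ * cyclotomic n ℤ) by ring, h]
  rw [map_sub, map_pow, expand_X, map_one, ← pow_mul, mul_comm r n]

/-- Sum of `f 0, ..., f (n-1)`, by structural recursion. -/
def sumTo (f : ℕ → ℤ) : ℕ → ℤ
  | 0 => 0
  | n + 1 => sumTo f n + f n

theorem sumTo_eq (f : ℕ → ℤ) (n : ℕ) : sumTo f n = ∑ i ∈ range n, f i := by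
  induction n with
  | zero => rfl
  | succ n ih => rw [Finset.sum_range_succ, sumTo, ih]

theorem sum_range_blocks (f : ℕ → ℤ) (a b : ℕ) :
    ∑ m ∈ range (a * b), f m = sumTo (fun i => sumTo (fun j => f (b * i + j)) b) a := by
  induction a with
  | zero => simp [sumTo]
  | succ a ih =>
    rw [sumTo, ← ih, sumTo_eq, Nat.succ_mul, Finset.sum_range_add]
    congr 1
    apply Finset.sum_congr rfl
    intro j _
    rw [mul_comm a b]

/-- Bounded universal check by structural recursion. -/
def allTo (f : ℕ → Bool) : ℕ → Bool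
  | 0 => true
  | n + 1 => f n && allTo f n

theorem allTo_spec (f : ℕ → Bool) (n : ℕ) (h : allTo f n = true) : ∀ k < n, f k = true := by
  induction n with
  | zero => intro k hk; omega
  | succ n ih =>
    rw [allTo, Bool.and_eq_true] at h
    intro k hk
    rcases Nat.lt_or_ge k n with h1 | h1
    · exact ih h.2 k h1
    · have : k = n := by omega
      rw [this]; exact h.1


theorem coeff_step {n s : ℕ} (hn : 0 < n) (hs : s.Prime) (hdiv : ¬ s ∣ n) {Ps : ℤ[X]}
    (hPs : Ps * cyclotomic n ℤ = X ^ n - 1) (f g : ℕ → ℤ)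
    (hf : ∀ j, (cyclotomic n ℤ).coeff j = f j) (hg : ∀ j, Ps.coeff j = g j)
    (hg0 : ∀ j, n ≤ j → g j = 0) (N : ℕ) (hN : n * s = N) (k : ℕ) :
    (cyclotomic N ℤ).coeff k = - sumTo (fun m => f m * g ((k - m * s) % n)) (k / s + 1) := by
  subst hN
  rw [coeff_of_mul_eq hn hs.pos (fun j hj => by rw [hg, hg0 j hj])
    (cyclotomic_step hs hdiv hPs) k, sumTo_eq]
  congr 1
  apply Finset.sum_congr rfl
  intro m _
  rw [hf, hg]

/-- the inverse cyclotomic polynomial of order `n * r` built from that of order `n` -/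
noncomputable def psiNext (r : ℕ) (Ps Ph : ℤ[X]) : ℤ[X] := expand ℤ r Ps * Ph

theorem psiNext_spec {n r : ℕ} (hr : r.Prime) (hdiv : ¬ r ∣ n) {Ps : ℤ[X]}
    (hPs : Ps * cyclotomic n ℤ = X ^ n - 1) (N : ℕ) (hN : n * r = N) :
    psiNext r Ps (cyclotomic n ℤ) * cyclotomic N ℤ = X ^ N - 1 := by
  subst hN
  exact psi_step hr hdiv hPs

theorem psiNext_coeff {r : ℕ} (hr : 0 < r) {Ps Ph : ℤ[X]} (f g : ℕ → ℤ)
    (hf : ∀ j, Ph.coeff j = f j) (hg : ∀ j, Ps.coeff j = g j)
    (hf0 : ∀ j, r ≤ j → f j = 0) (l : ℕ) :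
    (psiNext r Ps Ph).coeff l = g (l / r) * f (l % r) := by
  rw [psiNext, coeff_expand_mul hr (fun j hj => by rw [hf, hf0 j hj]), hf, hg]

/-! ### The concrete instance `p = 13`, `q = 17`, `r = 443`, `s = 391613`. -/

/-- coefficients of `Φ_{221}` as a pair of bit masks -/
def f2 (k : ℕ) : ℤ :=
  if Nat.testBit 6277915973402431602516526732568328353527481389979030134785 k then 1
  else if Nat.testBit 3138957986701215104269577332940868044027862887469169262594 k then -1
  else 0

/-- coefficients of `Ψ_{221}` -/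
def g2 (j : ℕ) : ℤ :=
  if j < 13 then -1 else if j < 17 then 0 else if j < 30 then 1 else 0

/-- coefficients of `Φ_{97903}` -/
def f3 (m : ℕ) : ℤ := - sumTo (fun b => f2 b * g2 ((m - b * 443) % 221)) (m / 443 + 1)

/-- coefficients of `Ψ_{97903}` -/
def g3 (l : ℕ) : ℤ := g2 (l / 443) * f2 (l % 443)

theorem coeff_cyclotomic_13 (k : ℕ) :
    (cyclotomic 13 ℤ).coeff k = if k < 13 then 1 else 0 := by
  have hp : Nat.Prime 13 := by norm_num
  have : Fact (Nat.Prime 13) := ⟨hp⟩
  rw [cyclotomic_prime ℤ 13]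
  simp [coeff_X_pow]

/-- coefficients of `X - 1` -/
def g1 (j : ℕ) : ℤ := if j = 0 then -1 else if j = 1 then 1 else 0

theorem coeff_X_sub_one (j : ℕ) : (X - 1 : ℤ[X]).coeff j = g1 j := by
  unfold g1
  rw [coeff_sub, coeff_X, coeff_one]
  by_cases h0 : j = 0
  · subst h0; simp
  · by_cases h1 : j = 1
    · subst h1; simp
    · rw [if_neg h0, if_neg h1, if_neg (fun h => h1 h.symm), if_neg h0]; simp

theorem psi13 : (X - 1 : ℤ[X]) * cyclotomic 13 ℤ = X ^ 13 - 1 := by
  have hp : Nat.Prime 13 := by norm_num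
  have : Fact (Nat.Prime 13) := ⟨hp⟩
  rw [mul_comm]
  exact cyclotomic_prime_mul_X_sub_one ℤ 13


/-- raw form of the coefficients of `Φ_{221}` -/
def f2raw (k : ℕ) : ℤ :=
  - sumTo (fun m => (if m < 13 then 1 else 0) * g1 ((k - m * 17) % 13)) (k / 17 + 1)

theorem coeff_cyclotomic_221_raw (k : ℕ) : (cyclotomic 221 ℤ).coeff k = f2raw k :=
  coeff_step (by norm_num) (by norm_num) (by norm_num) psi13 (fun m => if m < 13 then 1 else 0) g1
    coeff_cyclotomic_13 coeff_X_sub_one
    (fun j hj => by unfold g1; rw [if_neg (by omega), if_neg (by omega)]) 221 (by norm_num) k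

theorem natDegree_221 : (cyclotomic 221 ℤ).natDegree = 192 := by
  rw [natDegree_cyclotomic]
  have : (221 : ℕ) = 13 * 17 := by norm_num
  rw [this, Nat.totient_mul (by norm_num), Nat.totient_prime (by norm_num),
    Nat.totient_prime (by norm_num)]

theorem f2_table : allTo (fun k => decide (f2raw k = f2 k)) 193 = true := by
  decide +kernel

theorem f2_large (k : ℕ) (hk : 193 ≤ k) : f2 k = 0 := by
  unfold f2
  have h1 : Nat.testBit 6277915973402431602516526732568328353527481389979030134785 k = false := by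
    apply Nat.testBit_lt_two_pow
    calc 6277915973402431602516526732568328353527481389979030134785 < 2 ^ 193 := by norm_num
      _ ≤ 2 ^ k := Nat.pow_le_pow_right (by norm_num) hk
  have h2 : Nat.testBit 3138957986701215104269577332940868044027862887469169262594 k = false := by
    apply Nat.testBit_lt_two_pow
    calc 3138957986701215104269577332940868044027862887469169262594 < 2 ^ 193 := by norm_num
      _ ≤ 2 ^ k := Nat.pow_le_pow_right (by norm_num) hk
  rw [h1, h2]; simp

theorem coeff_cyclotomic_221 (k : ℕ) : (cyclotomic 221 ℤ).coeff k = f2 k := by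
  rcases Nat.lt_or_ge k 193 with hk | hk
  · rw [coeff_cyclotomic_221_raw]
    exact of_decide_eq_true (allTo_spec _ 193 f2_table k hk)
  · rw [f2_large k hk]
    apply coeff_eq_zero_of_natDegree_lt
    rw [natDegree_221]; omega

/-- `Ψ_{221}` -/
noncomputable def Psi221 : ℤ[X] := psiNext 17 (X - 1) (cyclotomic 13 ℤ)

theorem psi221 : Psi221 * cyclotomic 221 ℤ = X ^ 221 - 1 :=
  psiNext_spec (by norm_num) (by norm_num) psi13 221 (by norm_num)

theorem coeff_Psi221 (j : ℕ) : Psi221.coeff j = g2 j := by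
  rw [Psi221, psiNext_coeff (by norm_num) (fun m => if m < 13 then 1 else 0) g1
    coeff_cyclotomic_13 coeff_X_sub_one (fun j hj => by rw [if_neg (by omega)])]
  unfold g1 g2
  rcases Nat.lt_or_ge j 34 with h | h
  · interval_cases j <;> simp
  · rw [if_neg (show ¬ j / 17 = 0 by omega), if_neg (show ¬ j / 17 = 1 by omega), zero_mul,
      if_neg (show ¬ j < 13 by omega), if_neg (show ¬ j < 17 by omega),
      if_neg (show ¬ j < 30 by omega)]

theorem coeff_cyclotomic_97903 (m : ℕ) : (cyclotomic 97903 ℤ).coeff m = f3 m :=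
  coeff_step (by norm_num) (by norm_num) (by norm_num) psi221 f2 g2
    coeff_cyclotomic_221 coeff_Psi221
    (fun j hj => by unfold g2; rw [if_neg (by omega), if_neg (by omega), if_neg (by omega)])
    97903 (by norm_num) m

/-- `Ψ_{97903}` -/
noncomputable def Psi97903 : ℤ[X] := psiNext 443 Psi221 (cyclotomic 221 ℤ)

theorem psi97903 : Psi97903 * cyclotomic 97903 ℤ = X ^ 97903 - 1 :=
  psiNext_spec (by norm_num) (by norm_num) psi221 97903 (by norm_num)

theorem coeff_Psi97903 (l : ℕ) : Psi97903.coeff l = g3 l :=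
  psiNext_coeff (by norm_num) f2 g2 coeff_cyclotomic_221 coeff_Psi221
    (fun j hj => f2_large j (by omega)) l

theorem coeff_final (k : ℕ) : (cyclotomic (13 * 17 * 443 * 391613) ℤ).coeff k
    = - sumTo (fun m => f3 m * g3 ((k - m * 391613) % 97903)) (k / 391613 + 1) :=
  coeff_step (by norm_num) (by norm_num) (by norm_num) psi97903 f3 g3
    coeff_cyclotomic_97903 coeff_Psi97903
    (fun j hj => by
      unfold g3 g2
      rw [if_neg (show ¬ j / 443 < 13 by omega), if_neg (show ¬ j / 443 < 17 by omega),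
        if_neg (show ¬ j / 443 < 30 by omega), zero_mul])
    _ (by norm_num) k

/-- the summand, arranged so that the kernel skips the many zero terms -/
def term (m : ℕ) : ℤ :=
  if g3 ((4514123094 - m * 391613) % 97903) = 0 then 0
  else f3 m * g3 ((4514123094 - m * 391613) % 97903)

theorem term_eq (m : ℕ) : f3 m * g3 ((4514123094 - m * 391613) % 97903) = term m := by
  unfold term
  split_ifs with h
  · rw [h, mul_zero]
  · rfl

theorem big_sum : sumTo (fun i => sumTo (fun j => term (88 * i + j)) 88) 131 = -3 := by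
  decide +kernel

theorem coeff_value : (cyclotomic (13 * 17 * 443 * 391613) ℤ).coeff 4514123094 = 3 := by
  rw [coeff_final]
  have e : 4514123094 / 391613 + 1 = 131 * 88 := by norm_num
  rw [e, sumTo_eq]
  have : ∑ m ∈ range (131 * 88), f3 m * g3 ((4514123094 - m * 391613) % 97903)
      = ∑ m ∈ range (131 * 88), term m :=
    Finset.sum_congr rfl (fun m _ => term_eq m)
  rw [this, sum_range_blocks, big_sum]
  norm_num

/-- There are primes `p < q < r < s` with `s = ±1 mod pqr`, `r = ±1 mod pq`, `q ≠ -1 mod p`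
for which the height of the cyclotomic polynomial `Φ_{pqrs}` is at least `3`.
The witness is `(p, q, r, s) = (13, 17, 443, 391613)`: the coefficient of `X ^ 4514123094`
in `Φ_{pqrs}` is `3`. -/
theorem result : ∃ p q r s : ℕ, p.Prime ∧ q.Prime ∧ r.Prime ∧ s.Prime ∧
    p < q ∧ q < r ∧ r < s ∧
    (s ≡ 1 [MOD p * q * r] ∨ s + 1 ≡ 0 [MOD p * q * r]) ∧
    (r ≡ 1 [MOD p * q] ∨ r + 1 ≡ 0 [MOD p * q]) ∧
    ¬ (q + 1 ≡ 0 [MOD p]) ∧
    3 ≤ (cyclotomic (p * q * r * s) ℤ).support.sup
      fun k => ((cyclotomic (p * q * r * s) ℤ).coeff k).natAbs := by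
  refine ⟨13, 17, 443, 391613, by norm_num, by norm_num, by norm_num, by norm_num,
    by norm_num, by norm_num, by norm_num, Or.inl (by decide), Or.inl (by decide),
    by decide, ?_⟩
  have h3 : ((cyclotomic (13 * 17 * 443 * 391613) ℤ).coeff 4514123094).natAbs
      ≤ (cyclotomic (13 * 17 * 443 * 391613) ℤ).support.sup
        fun k => ((cyclotomic (13 * 17 * 443 * 391613) ℤ).coeff k).natAbs := by
    apply Finset.le_sup (f := fun k => ((cyclotomic (13 * 17 * 443 * 391613) ℤ).coeff k).natAbs)
    rw [mem_support_iff, coeff_value]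
    norm_num
  rw [coeff_value] at h3
  exact h3

end Pool.Agent.Results.MP_b29aa3_nt.HeightAtLeastThree
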